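import Pool.Agent.H74.OneP.UStmts

/-! Module U2: the skeleton of a nice complex is a valid drawing. -/

set_option autoImplicit false

namespace Pool.Agent.H74.OneP

open Equiv Equiv.Perm Drawing

namespace U2aux

/-- a set closed under a permutation of a finite type is closed under its inverse -/
theorem mem_inv {D : Type} [Finite D] (p : Perm D) (s : Set D) (h : ∀ d ∈ s, p d ∈ s)
    (d : D) (hd : d ∈ s) : p.symm d ∈ s := by
  have hb : Set.BijOn p s s := by
    have hfin : s.Finite := Set.toFinite s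
    exact (hfin.injOn_iff_bijOn_of_mapsTo h).1 p.injective.injOn
  obtain ⟨e, he, hed⟩ := hb.surjOn hd
  rw [← hed]
  simpa using he

end U2aux

open U2aux in
theorem u2 : SkelValidStmt := by
  intro Q hQ
  have := Q.finV
  have := Q.finC
  have := Q.finT
  have := Q.finR
  have hrs : ∀ e : Q.E, (∀ a, Q.nx e = .inl a → Q.skRot.symm (.inl (Q.gl e)) = .inr (.inl a)) ∧
      ∀ r, Q.nx e = .inr r → Q.skRot.symm (.inl (Q.gl e)) = .inl (.inr r) := by
    intro e
    constructor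
    · intro a ha
      change (match Q.nx (Q.gl (Q.gl e)) with
        | .inl a => (.inr (.inl a) : Q.E ⊕ ((Q.C × Fin 4) ⊕ (Q.C × Fin 4)))
        | .inr r => .inl (.inr r)) = _
      rw [Q.gl_gl, ha]
    · intro a ha
      change (match Q.nx (Q.gl (Q.gl e)) with
        | .inl a => (.inr (.inl a) : Q.E ⊕ ((Q.C × Fin 4) ⊕ (Q.C × Fin 4)))
        | .inr r => .inl (.inr r)) = _
      rw [Q.gl_gl, ha]
  refine
    { finV := Q.finV
      finX := Q.finC
      finF := inferInstanceAs (Finite ((Q.C × Fin 4) ⊕ Q.T))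
      finD := inferInstanceAs (Finite (Q.E ⊕ ((Q.C × Fin 4) ⊕ (Q.C × Fin 4))))
      org_surj := ?_
      fac_surj := ?_
      org_rot := ?_
      fac_nxt := ?_
      rev_rev := ?_
      rev_ne := ?_
      conn := ?_
      euler := ?_
      cross_four := ?_
      cross_two := ?_
      cross_rev := ?_ }
  · rintro (v | x)
    · obtain ⟨e, he⟩ := hQ.st_surj v
      exact ⟨.inl e, congrArg Sum.inl he⟩
    · exact ⟨.inr (.inr (x, 0)), rfl⟩
  · rintro (a | t)
    · exact ⟨.inl (.inl a), rfl⟩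
    · obtain ⟨r, hr⟩ := hQ.pol_surj t
      exact ⟨.inl (.inr r), congrArg Sum.inr hr⟩
  · rintro ((a | r) | (a | a))
    · rfl
    · change Sum.inl (Q.st (Q.gl (Q.nx.symm (.inr r)))) = Sum.inl (Q.st (.inr r))
      rw [hQ.st_gl, Equiv.apply_symm_apply]
    · change Sum.inl (Q.st (Q.gl (Q.nx.symm (.inl a)))) = Sum.inl (Q.st (.inl a))
      rw [hQ.st_gl, Equiv.apply_symm_apply]
    · rfl
  · rintro ((a | r) | (a | a))
    · have h : Q.nx (.inl a) = .inl (a.1, a.2 + 1) := rfl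
      change Q.skel.fac (Q.skRot.symm (.inl (Q.gl (.inl a)))) = _
      rw [(hrs (.inl a)).1 _ h]
      change (Sum.inl (a.1, a.2 + 1 - 1) : (Q.C × Fin 4) ⊕ Q.T) = Sum.inl a
      rw [add_sub_cancel_right]
    · have h : Q.nx (.inr r) = .inr (Q.nxR r) := rfl
      change Q.skel.fac (Q.skRot.symm (.inl (Q.gl (.inr r)))) = _
      rw [(hrs (.inr r)).2 _ h]
      exact congrArg Sum.inr (hQ.pol_nx r)
    · rfl
    · rfl
  · rintro (e | (a | a))
    · exact congrArg Sum.inl (Q.gl_gl e)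
    · rfl
    · rfl
  · rintro (e | (a | a))
    · intro h
      exact hQ.gl_ne e (Sum.inl_injective h)
    · intro h
      have h2 := Sum.inr_injective h
      cases h2
    · intro h
      have h2 := Sum.inr_injective h
      cases h2
  · intro s hs hc
    have hfin : Finite (Q.E ⊕ ((Q.C × Fin 4) ⊕ (Q.C × Fin 4))) := inferInstance
    have hi : ∀ d ∈ s, Q.skRot.symm d ∈ s := fun d hd =>
      mem_inv (D := Q.E ⊕ ((Q.C × Fin 4) ⊕ (Q.C × Fin 4))) Q.skRot s (fun d hd => (hc d hd).1) d hd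
    have hne : {e : Q.E | (Sum.inl e : Q.E ⊕ ((Q.C × Fin 4) ⊕ (Q.C × Fin 4))) ∈ s}.Nonempty := by
      obtain ⟨d, hd⟩ := hs
      rcases d with e | (a | a)
      · exact ⟨e, hd⟩
      · exact ⟨.inl a, hi _ hd⟩
      · exact ⟨.inl a, hi _ (hc _ hd).2⟩
    have hall := hQ.conn _ hne (by
      intro e he
      refine ⟨?_, (hc _ he).2⟩
      have h1 : Q.skRot.symm (.inl (Q.gl e)) ∈ s := hi _ (hc _ he).2
      change (Sum.inl (Q.nx e) : Q.E ⊕ ((Q.C × Fin 4) ⊕ (Q.C × Fin 4))) ∈ s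
      rcases hn : Q.nx e with a | r
      · rw [(hrs e).1 a hn] at h1
        exact hi _ h1
      · rw [(hrs e).2 r hn] at h1
        exact h1)
    have hall' : ∀ e : Q.E, (Sum.inl e : Q.E ⊕ ((Q.C × Fin 4) ⊕ (Q.C × Fin 4))) ∈ s := by
      intro e
      have : e ∈ {e : Q.E | (Sum.inl e : Q.E ⊕ ((Q.C × Fin 4) ⊕ (Q.C × Fin 4))) ∈ s} := by
        rw [hall]; trivial
      exact this
    have h2 : ∀ a, (Sum.inr (Sum.inl a) : Q.E ⊕ ((Q.C × Fin 4) ⊕ (Q.C × Fin 4))) ∈ s :=
      fun a => (hc _ (hall' (.inl a))).1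
    apply Set.eq_univ_of_forall
    rintro (e | (a | a))
    · exact hall' e
    · exact h2 a
    · exact (hc _ (h2 a)).2
  · change Nat.card (Q.E ⊕ ((Q.C × Fin 4) ⊕ (Q.C × Fin 4))) + 4 ≤
      2 * (Nat.card Q.V + Nat.card Q.C + Nat.card ((Q.C × Fin 4) ⊕ Q.T))
    have h := hQ.euler
    simp only [Nat.card_sum, Nat.card_prod, Nat.card_eq_fintype_card (α := Fin 4),
      Fintype.card_fin]
    omega
  · rintro (e | (a | a)) x hx
    · cases hx
    · cases hx
    · change (Sum.inr (Sum.inr (a.1, a.2 + 1 + 1 + 1 + 1)) :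
        Q.E ⊕ ((Q.C × Fin 4) ⊕ (Q.C × Fin 4))) = Sum.inr (Sum.inr a)
      have : ∀ i : Fin 4, i + 1 + 1 + 1 + 1 = i := by decide
      rw [this]
  · rintro (e | (a | a)) x hx
    · cases hx
    · cases hx
    · intro h
      change (Sum.inr (Sum.inr (a.1, a.2 + 1 + 1)) :
        Q.E ⊕ ((Q.C × Fin 4) ⊕ (Q.C × Fin 4))) = Sum.inr (Sum.inr a) at h
      have h2 := congrArg Prod.snd (Sum.inr_injective (Sum.inr_injective h))
      have h3 : ∀ i : Fin 4, i + 1 + 1 ≠ i := by decide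
      exact h3 _ h2
  · rintro (e | (a | a)) x hx
    · cases hx
    · cases hx
    · exact ⟨_, rfl⟩

end Pool.Agent.H74.OneP
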