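import Pool.Agent.H74.OneP.UStmts

/-! Module U3: the skeleton of a nice complex is a good drawing. -/

set_option autoImplicit false

namespace Pool.Agent.H74.OneP

open Equiv Equiv.Perm Drawing

namespace U3aux

variable {Q : PM} (hE : Q.skel.Exact)

/-- the drawing -/
abbrev MM : Drawing := Q.skel.toDrawing hE

/-- darts of the skeleton -/
abbrev DT (Q : PM) : Type := Q.E ⊕ ((Q.C × Fin 4) ⊕ (Q.C × Fin 4))

theorem far_side (e : Q.E) : (MM hE).far (Sum.inl e : DT Q) = (Sum.inl (Q.gl e) : DT Q) := by
  unfold Drawing.far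
  rw [if_neg]
  · rfl
  · rintro ⟨x, hx⟩
    cases hx

theorem far_diag (a : Q.C × Fin 4) : (MM hE).far (Sum.inr (Sum.inl a) : DT Q) =
    (Sum.inr (Sum.inl (a.1, a.2 + 1 + 1)) : DT Q) := by
  unfold Drawing.far
  rw [if_pos ⟨a.1, rfl⟩]
  rfl

theorem two (i : Fin 4) : i + 1 + 1 = i + 2 := by
  revert i
  decide

theorem org_far_side (hQ : Q.Nice) (e : Q.E) :
    (MM hE).org ((MM hE).far (Sum.inl e : DT Q)) = Sum.inl (Q.st (Q.nx e)) := by
  rw [far_side]
  exact congrArg Sum.inl (hQ.st_gl e)

theorem org_far_diag (a : Q.C × Fin 4) :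
    (MM hE).org ((MM hE).far (Sum.inr (Sum.inl a) : DT Q)) =
      Sum.inl (Q.st (Sum.inl (a.1, a.2 + 2))) := by
  rw [far_diag, two]
  rfl

theorem adj_of (hQ : Q.Nice) {u v : Q.V} (huv : u ≠ v) (h : Q.Adj u v) :
    (MM hE).graph.Adj u v := by
  refine (SimpleGraph.fromRel_adj _ _ _).2 ⟨huv, Or.inl ?_⟩
  rcases h with ⟨e, h1, h2⟩ | ⟨c, i, h1, h2⟩
  · exact ⟨(Sum.inl e : DT Q), congrArg Sum.inl h1,
      (org_far_side hE hQ e).trans (congrArg Sum.inl h2)⟩
  · exact ⟨(Sum.inr (Sum.inl (c, i)) : DT Q), congrArg Sum.inl h1,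
      (org_far_diag hE (c, i)).trans (congrArg Sum.inl h2)⟩

theorem st_ne (hQ : Q.Nice) (e : Q.E) : Q.st e ≠ Q.st (Q.nx e) := by
  rcases e with ⟨c, i⟩ | r
  · intro h
    have h1 := hQ.corner c i (i + 1) h
    have h2 : ∀ i : Fin 4, i ≠ i + 1 := by decide
    exact h2 i h1
  · exact (hQ.clique r (Q.nxR r) (hQ.pol_nx r).symm (fun h => (hQ.plain3 r).1 h.symm)).1

/-- vertices on a face next to a side of a crossing square -/
theorem sq_face {d : DT Q} {a : Q.C × Fin 4} {u : Q.V}
    (h1 : (MM hE).fac d = (Sum.inl a : (Q.C × Fin 4) ⊕ Q.T)) (h2 : (MM hE).org d = Sum.inl u) :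
    u = Q.st (Sum.inl a) ∨ u = Q.st (Q.nx (Sum.inl a)) := by
  rcases d with (b | r) | (b | b)
  · have h3 : (Sum.inl b : (Q.C × Fin 4) ⊕ Q.T) = Sum.inl a := h1
    have h4 : (Sum.inl (Q.st (Sum.inl b)) : Q.V ⊕ Q.C) = Sum.inl u := h2
    rw [Sum.inl.injEq] at h3 h4
    left
    rw [← h4, h3]
  · cases h1
  · have h3 : (Sum.inl (b.1, b.2 - 1) : (Q.C × Fin 4) ⊕ Q.T) = Sum.inl a := h1
    have h4 : (Sum.inl (Q.st (Sum.inl b)) : Q.V ⊕ Q.C) = Sum.inl u := h2
    rw [Sum.inl.injEq] at h3 h4
    right
    rw [← h4, ← h3]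
    change Q.st (Sum.inl b) = Q.st (Sum.inl (b.1, b.2 - 1 + 1))
    rw [sub_add_cancel]
  · cases h2

end U3aux

open U3aux in
theorem u3 (h0 : TwoConnStmt) : SkelGoodStmt := by
  intro Q hQ hV hE
  have hs : (MM hE).IsSimple := by
    refine ⟨?_, ?_, ?_⟩
    · rintro (e | (a | a)) u hu hf
      · have h1 : Q.st e = u := Sum.inl_injective hu
        have h2 : Q.st (Q.nx e) = u := by
          have := (org_far_side hE hQ e).symm.trans hf
          exact Sum.inl_injective this
        exact st_ne hQ e (h1.trans h2.symm)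
      · have h1 : Q.st (.inl a) = u := Sum.inl_injective hu
        have h2 : Q.st (.inl (a.1, a.2 + 2)) = u := by
          have := (org_far_diag hE a).symm.trans hf
          exact Sum.inl_injective this
        have h3 := hQ.corner a.1 a.2 (a.2 + 2) (h1.trans h2.symm)
        have h4 : ∀ i : Fin 4, i ≠ i + 2 := by decide
        exact h4 _ h3
      · cases hu
    · rintro (e | (a | a)) (e' | (a' | a')) u v h1 h2 h3 h4
      · have k1 : Q.st e = u := Sum.inl_injective h1
        have k2 : Q.st e' = u := Sum.inl_injective h2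
        have k3 : Q.st (Q.nx e) = v := Sum.inl_injective ((org_far_side hE hQ e).symm.trans h3)
        have k4 : Q.st (Q.nx e') = v := Sum.inl_injective ((org_far_side hE hQ e').symm.trans h4)
        exact congrArg Sum.inl (hQ.side e e' (k1.trans k2.symm) (k3.trans k4.symm))
      · exfalso
        have k1 : Q.st e = u := Sum.inl_injective h1
        have k2 : Q.st (.inl a') = u := Sum.inl_injective h2
        have k3 : Q.st (Q.nx e) = v := Sum.inl_injective ((org_far_side hE hQ e).symm.trans h3)
        have k4 : Q.st (.inl (a'.1, a'.2 + 2)) = v :=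
          Sum.inl_injective ((org_far_diag hE a').symm.trans h4)
        exact hQ.mixed a' e (k2.trans k1.symm) (k4.trans k3.symm)
      · cases h2
      · exfalso
        have k1 : Q.st e' = u := Sum.inl_injective h2
        have k2 : Q.st (.inl a) = u := Sum.inl_injective h1
        have k3 : Q.st (Q.nx e') = v := Sum.inl_injective ((org_far_side hE hQ e').symm.trans h4)
        have k4 : Q.st (.inl (a.1, a.2 + 2)) = v :=
          Sum.inl_injective ((org_far_diag hE a).symm.trans h3)
        exact hQ.mixed a e' (k2.trans k1.symm) (k4.trans k3.symm)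
      · have k1 : Q.st (.inl a) = u := Sum.inl_injective h1
        have k2 : Q.st (.inl a') = u := Sum.inl_injective h2
        have k3 : Q.st (.inl (a.1, a.2 + 2)) = v :=
          Sum.inl_injective ((org_far_diag hE a).symm.trans h3)
        have k4 : Q.st (.inl (a'.1, a'.2 + 2)) = v :=
          Sum.inl_injective ((org_far_diag hE a').symm.trans h4)
        exact congrArg (fun a => Sum.inr (Sum.inl a))
          (hQ.diag a a' (k1.trans k2.symm) (k3.trans k4.symm))
      · cases h2
      · cases h1
      · cases h1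
      · cases h1
    · rintro (e | (a | a)) ⟨x, hx⟩ h
      · cases hx
      · cases hx
      · have h1 : Q.st (.inl a) = Q.st (.inl (a.1, a.2 + 1)) := Sum.inl_injective h
        have h3 := hQ.corner a.1 a.2 (a.2 + 1) h1
        have h4 : ∀ i : Fin 4, i ≠ i + 1 := by decide
        exact h4 _ h3
  have hadj : ∀ a : Q.C × Fin 4, (MM hE).graph.Adj (Q.st (.inl a)) (Q.st (Q.nx (.inl a))) :=
    fun a => adj_of hE hQ (st_ne hQ _) (Or.inl ⟨.inl a, rfl, rfl⟩)
  have hm : (MM hE).IsMaximal := by
    refine ⟨?_, ?_⟩
    · intro d e u v hd he hf huv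
      rcases hfd : (MM hE).fac d with a | t
      · have k1 := sq_face hE hfd hd
        have k2 := sq_face hE (hf ▸ hfd) he
        rcases k1 with k1 | k1 <;> rcases k2 with k2 | k2
        · exact absurd (k1.trans k2.symm) huv
        · rw [k1, k2]; exact hadj a
        · rw [k1, k2]; exact (hadj a).symm
        · exact absurd (k1.trans k2.symm) huv
      · have hfe : (MM hE).fac e = Sum.inr t := hf ▸ hfd
        rcases d with (b | r) | (b | b)
        · cases hfd
        · rcases e with (b' | r') | (b' | b')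
          · cases hfe
          · have h1 : Q.pol r = t := Sum.inr_injective hfd
            have h2 : Q.pol r' = t := Sum.inr_injective hfe
            have h3 : Q.st (.inr r) = u := Sum.inl_injective hd
            have h4 : Q.st (.inr r') = v := Sum.inl_injective he
            have hne : r ≠ r' := by
              rintro rfl
              exact huv (h3.symm.trans h4)
            have h5 := (hQ.clique r r' (h1.trans h2.symm) hne).2
            rw [h3, h4] at h5
            exact adj_of hE hQ huv h5
          · cases hfe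
          · cases hfe
        · cases hfd
        · cases hfd
    · intro k d e u v hk hk' hd he hfd hfe h1 h2 h3 h4 huv
      exfalso
      rcases k with (b | r) | (b | b)
      · rcases sq_face hE (d := d) (a := b) hfd hd with h | h
        · exact h1 (by rw [h]; rfl)
        · apply h2
          rw [h]
          exact congrArg Sum.inl (hQ.st_gl (.inl b))
      · obtain ⟨a, ha⟩ := hQ.plain r
        have hfe' : (MM hE).fac e = (Sum.inl a : (Q.C × Fin 4) ⊕ Q.T) := by
          rw [hfe]
          change Q.skel.fac (Sum.inl (Q.gl (.inr r))) = _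
          rw [ha]
          rfl
        have ha' : Q.gl (.inl a) = .inr r := by rw [← ha, Q.gl_gl]
        rcases sq_face hE hfe' he with h | h
        · apply h4
          rw [h, ← ha]
          rfl
        · apply h3
          rw [h, ← hQ.st_gl, ha']
          rfl
      · exact hk' ⟨b.1, rfl⟩
      · exact hk ⟨b.1, rfl⟩
  exact ⟨hs, hm, h0 (MM hE) hs hm hV⟩

end Pool.Agent.H74.OneP
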